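import Pool.Agent.helper98.RPQ.SpecR
import Pool.Agent.helper62.RS.All

/-!
# MP_07c750, project RPQ, row UNL: unfolding for functions with values in `[0, ∞]`
-/

set_option autoImplicit false

open scoped MatrixGroups ContDiff Topology UpperHalfPlane ComplexConjugate ENNReal
open UpperHalfPlane MeasureTheory Filter Set

namespace Pool.Agent.RPQ

open Pool.Agent.RS
open Pool.Agent.MS (BA BB st pf gk Dk amk)

theorem UNL_proof : UNL_stmt := by
  intro Γ F hΓ hF
  have := A_GLC.2.1
  have := GFD_inv A_GLC A_GLI Γ
  have : Countable Γ := (QU.A_DOB Γ F hΓ hF).1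
  have f2 := GFD_fund A_GLC A_GMG Γ F hF 1
  have e3 : (fun g : SL(2, ℝ) => g * 1) ⁻¹' dG F = dG F := by
    ext g
    simp only [mem_preimage, mul_one]
  rw [e3] at f2
  refine ⟨?_, ?_⟩
  · intro f hf
    rw [f2.lintegral_eq_tsum'' f]
    exact lintegral_tsum fun γ => (hf.comp (continuous_const_mul (γ : SL(2, ℝ))).measurable).aemeasurable
  · intro f k hf
    refine ⟨?_, ?_⟩
    · have h1 := lintegral_map (μ := mG) hf (continuous_const_mul k).measurable
      rw [A_GLI k] at h1
      exact h1.symm
    · have h1 := lintegral_map (μ := mG) hf (continuous_mul_const k).measurable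
      rw [A_GRI k] at h1
      exact h1.symm

end Pool.Agent.RPQ
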