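import Pool.Agent.helper11.RPQ.Defs

/-!
# MP_07c750 (quantum unique ergodicity, weight 10), project RPQ, block P: packets with explicit width, rows `rpq:X`

Page: /team-store/RPQ.md, section P. RULES: see `Pool/Agent/helper11/RPQ/Defs.lean`. Row `rpq:XXX`: file `Pool/Agent/<seat>/RPQ/XXX.lean`, `import Pool.Agent.helper29.RPQ.SpecP` (and, if you
need the proved rows of RS or MS, `Pool.Agent.helper62.RS.All` and the files `Pool/Agent/*/MS/*.lean` named in the docstring), `set_option autoImplicit false`, namespace `Pool.Agent.RPQ`,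
`open Pool.Agent.RS`, `open Pool.Agent.MS (BA BB st pf gk Dk amk)`, auxiliary lemmas prefixed `XXX_`, theorem `XXX_proof : XXX_stmt`; rows listed in `from` may be used as hypotheses `(h : YYY_stmt)`, exactly as in the lock note.

NOTATION in the proofs: `R` = frequency, `c = cw β α w l`, `C(x, τ) = cc c x τ = w^(-1/2) β(x/w) l^(-1) α(τ/l)`, supported in `|x| ≤ w/8`, `|τ| ≤ l/8`. `C` also denotes constants (depending on `α`, `β`, `k` only).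
-/

open scoped MatrixGroups ContDiff Topology UpperHalfPlane ComplexConjugate
open UpperHalfPlane MeasureTheory Filter Set

namespace Pool.Agent.RPQ

open Pool.Agent.RS
open Pool.Agent.MS (BA BB st pf gk Dk amk)

noncomputable section

/-! ## 1. Pure rows -/

/-- **Row NSM** (medium; Mathlib only). Repeated integration by parts. Since `a` vanishes off `[A, B]` and `θ' ≠ 0` on `[A, B]`, the function `D a = (a / θ')'` (division with `x / 0 = 0`) is smooth (`contDiff_iff_contDiffAt`: near a point of `[A, B]` the denominator is not zero, elsewhere `a = 0` near the point), vanishes off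
`[A, B]`, and `∫_A^B a e^(iθ) = i ∫_A^B (D a) e^(iθ)` (`a e^(iθ) = -i (a/θ') (e^(iθ))'`, the boundary terms vanish: `a A = a B = 0` by continuity if `A < B`). Let `b = 1/θ'`. On `[A, B]` `|b^(n)| ≤ C_n / λ` for `n ≤ k`: induction with Leibniz applied to `θ' b = 1` (near points of `[A, B]`).
So `|(a b)^(n+1)| ≤ Σ binom M m^j C/λ ≤ C' (M m / λ) m^n` for `n ≤ k - 1` (`m ≥ 1`): induction on `k` (for all `a`, `M`) with `M' = C' M m / λ`. For `k = 0` the trivial bound. -/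
def NSM_stmt : Prop := ∀ (k : ℕ) (C1 : ℝ), ∃ C : ℝ, 0 < C ∧ ∀ (a : ℝ → ℂ) (θ : ℝ → ℝ) (A B M m lam : ℝ), A ≤ B → ContDiff ℝ ∞ a → ContDiff ℝ ∞ θ →
  (∀ x, a x ≠ 0 → x ∈ Icc A B) → 1 ≤ m → 0 < lam → 0 ≤ M → (∀ x ∈ Icc A B, lam ≤ |deriv θ x|) →
  (∀ n : ℕ, 2 ≤ n → n ≤ k + 1 → ∀ x ∈ Icc A B, |iteratedDeriv n θ x| ≤ C1 * lam) →
  (∀ n : ℕ, n ≤ k → ∀ x ∈ Icc A B, ‖iteratedDeriv n a x‖ ≤ M * m ^ n) →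
    ‖∫ x in A..B, a x * Complex.exp ((θ x : ℂ) * Complex.I)‖ ≤ C * (B - A) * M * (m / lam) ^ k

/-- **Row HFB** (short-medium; Mathlib only). Fourier transforms of the profiles. Substitutions `τ = l τ'`, `x = e^o x'`. Decay: two integrations by parts, `k² hF β k = -hF (β'') k`, `|hF β| ≤ ∫ |β|`. For `α ≥ 0`, `∫ α = 1`, supported in `[-1/8, 1/8]`: `|hF α σ| ≤ 1` and `|hF α σ| ≥ Re hF α σ = ∫ α cos(στ) ≥ ∫ α (1 - σ²τ²/2) ≥ 1 - σ²`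
(compare row ALH of RS). -/
def HFB_stmt : Prop := (∀ (α : ℝ → ℝ) (l σ : ℝ), 0 < l → hF (sc l α) σ = hF α (l * σ)) ∧
  (∀ (β : ℝ → ℝ) (o k : ℝ), hF (st o β) k = ((Real.exp (o / 2) : ℝ) : ℂ) * hF β (Real.exp o * k)) ∧
  (∀ β : ℝ → ℝ, SB (1 / 8) β → ∃ C : ℝ, 0 < C ∧ ∀ k : ℝ, ‖hF β k‖ * (1 + k ^ 2) ≤ C) ∧
  ∀ α : ℝ → ℝ, BA (1 / 8) α → ∀ σ : ℝ, ‖hF α σ‖ ≤ 1 ∧ 1 - σ ^ 2 ≤ ‖hF α σ‖

/-- **Row LGB** (short-medium; compare `OV3_dir`, `OV3_bd` in helper49/MS/OV3.lean). Scaling: with `u = (x - t)/|t|`, `v = e^τ/|t|`: `((x-t)² + e^(2τ))^(-1/2) = |t|⁻¹ (u² + v²)^(-1/2)`, `log((x-t)² + e^(2τ)) = 2 log |t| + log(u² + v²)`; for `|x| ≤ 1/4`, `|t| ≥ 4` `1/2 ≤ |u| ≤ 2`, `0 ≤ v ≤ 1`; the functions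
`(u² + v²)^(-1/2)`, `log(u² + v²)` are smooth near this compact set, so their `u`-derivatives are bounded; `d/dx = |t|⁻¹ d/du` (`iteratedDeriv_comp_const_mul`, or the derivatives along lines with the direction `(|t|⁻¹, 0)`). The first derivative is explicit, `|x - t| ≥ (15/16)|t|`, `(x-t)² + e^(2τ) ≤ (17/16)² t² + 2 ≤ 2 t²`. -/
def LGB_stmt : Prop := ∀ k : ℕ, ∃ M : ℝ, 1 ≤ M ∧ ∀ t τ : ℝ, 4 ≤ |t| → |τ| ≤ 1 / 4 →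
  ContDiff ℝ ∞ (fun x : ℝ => ((x - t) ^ 2 + Real.exp (2 * τ)) ^ (-(1 / 2) : ℝ)) ∧ ContDiff ℝ ∞ (fun x : ℝ => Real.log ((x - t) ^ 2 + Real.exp (2 * τ))) ∧
  ∀ x : ℝ, |x| ≤ 1 / 4 → 1 / (2 * |t|) ≤ |deriv (fun x : ℝ => Real.log ((x - t) ^ 2 + Real.exp (2 * τ))) x| ∧
    (∀ n : ℕ, n ≤ k → |iteratedDeriv n (fun x : ℝ => ((x - t) ^ 2 + Real.exp (2 * τ)) ^ (-(1 / 2) : ℝ)) x| ≤ M / |t| ^ (n + 1)) ∧
    ∀ n : ℕ, 1 ≤ n → n ≤ k + 1 → |iteratedDeriv n (fun x : ℝ => Real.log ((x - t) ^ 2 + Real.exp (2 * τ))) x| ≤ M / |t| ^ n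

/-- **Row CWB** (short; from `MS.STB_proof`, `RS.A_CV1`). Basic facts: `st (log w) β x = w^(-1/2) β (x/w)`; STB with `o = log w`; `sc`: substitution; third part of CV1 with `1/8` and `1/4` (`pc` is real valued). -/
def CWB_stmt : Prop := ∀ (α β : ℝ → ℝ) (w l : ℝ), BA (1 / 8) α → BB (1 / 8) β → 0 < w → w ≤ 1 → 0 < l → l ≤ 1 →
  (∀ x, st (Real.log w) β x = w ^ (-(1 / 2) : ℝ) * β (x / w)) ∧ BB (w / 8) (st (Real.log w) β) ∧ BA (l / 8) (sc l α) ∧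
  BB (1 / 8) (st (Real.log w) β) ∧ BA (1 / 8) (sc l α) ∧
  TB (1 / 8) (cw β α w l) ∧ TB (1 / 4) (cw β α w l) ∧ (∀ z, conj (cw β α w l z) = cw β α w l z) ∧
  cc (cw β α w l) = pr (st (Real.log w) β) (sc l α) ∧ CB (cc (cw β α w l))

/-! ## 2. The boundary integral with explicit width -/

/-- **Row BUA** (medium; from NSM, LGB, CWB). `bI = ∫ l⁻¹ α(τ/l) e^(i(R-s)τ) [∫ a(x) e^(iθ(x)) dx] dτ`, `a(x) = w^(-1/2) β(x/w) ((x-t)² + e^(2τ))^(-1/2)`, `θ(x) = s log((x-t)² + e^(2τ))` (`z^(-1/2+is) = z^(-1/2) e^(is log z)` for `z > 0`). On `[-w/8, w/8]` by LGB and Leibniz `|a^(n)| ≤ C w^(-1/2) |t|⁻¹ (1/w)^n`, `n ≤ 14`;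
`|θ'| ≥ s/(2|t|) ≥ R/(4|t|) =: λ`, `|θ^(n)| ≤ s M/|t|^n ≤ 8 M λ`. NSM with `k = 14`, `m = 1/w`: the inner integral is at most `C w · w^(-1/2) |t|⁻¹ (4|t|/(w R))^14 ≤ C (R^(9/16) R^(3/8) / R)^14 = C R^(-7/8)`; `∫ l⁻¹ α(τ/l) dτ = 1`. -/
def BUA_stmt : Prop := ∀ α β : ℝ → ℝ, BA (1 / 8) α → BB (1 / 8) β → ∃ C : ℝ, 0 < C ∧ ∀ R s w l t : ℝ, 1 ≤ R → |s - R| ≤ R / 100 → w1 R ≤ w → w ≤ 1 →
  0 < l → l ≤ 1 → 4 ≤ |t| → |t| ≤ R ^ (9 / 16 : ℝ) → ‖bI (cc (cw β α w l)) R s t‖ ≤ C * R ^ (-(7 / 8) : ℝ)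

/-- **Row BUB** (short-medium; from CWB, `RS.OIB_stmt` (proved: `RS.A_OIB` or the file `Pool/Agent/*/RS/OIB.lean`); compare row BKB of RS, `Pool/Agent/*/RS/BKB.lean`). Interchange the integrals (continuous, compact support) and for fixed `x` use OIB in `τ` on `[-l/8, l/8]` with the amplitude `a(τ) = l⁻¹ α(τ/l) ((x-t)² + e^(2τ))^(-1/2)`:
`|a| ≤ C/l`, `|a'| ≤ C/l²` (`(x-t)² + e^(2τ) ≥ 1/2`), phase `θ = (R-s)τ + s log((x-t)² + e^(2τ))`, `θ' = (R-s) + 2s e^(2τ)/((x-t)²+e^(2τ)) ≥ 0.04 R`, `|θ''| ≤ 4 s`: the inner integral is at most `(l/4)(C/(l² R) + (C/l) R/R²) ≤ C/(l R)`; and `∫ w^(-1/2) |β(x/w)| dx = C √w`. -/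
def BUB_stmt : Prop := ∀ α β : ℝ → ℝ, BA (1 / 8) α → BB (1 / 8) β → ∃ C : ℝ, 0 < C ∧ ∀ R s w l t : ℝ, 1 ≤ R → |s - R| ≤ R / 100 → 0 < w → w ≤ 1 →
  0 < l → l ≤ 1 → |t| ≤ 4 → ‖bI (cc (cw β α w l)) R s t‖ ≤ C * (Real.sqrt w / (l * R))

/-- **Row BU2** (medium; from CWB). `(x-t)² + e^(2τ) = t² (1 + v)`, `v = -2x/t + (x² + e^(2τ))/t²`, so `((x-t)²+e^(2τ))^(-1/2+is) = |t|⁻¹ e^(2is log|t|) (1+v)^(-1/2) e^(is log(1+v))`. On the support `|v| ≤ 3/|t| ≤ 1/2`, `|(1+v)^(-1/2) - 1| ≤ 2|v|`, `|log(1+v) - v| ≤ v²`, so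
`|(1+v)^(-1/2) e^(is log(1+v)) - e^(-2isx/t)| ≤ 2|v| + s (v² + 2/t²) ≤ C R/t² + C/|t| ≤ C R^(-1/8)` (`t² ≥ R^(9/8)`). Multiply by `|C(x,τ)|/|t|` and integrate: `∫∫ |C| = √w ∫|β|`. Main term: `∫∫ C(x,τ) e^(i(R-s)τ) e^(-2isx/t) = hF (st (log w) β) (2s/t) · hF (sc l α) (s-R)` (`integral_mul`-type: product of the two integrals). -/
def BU2_stmt : Prop := ∀ α β : ℝ → ℝ, BA (1 / 8) α → BB (1 / 8) β → ∃ C : ℝ, 0 < C ∧ ∀ R s w l t : ℝ, 100 ≤ R → |s - R| ≤ R / 100 → 0 < w → w ≤ 1 →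
  0 < l → l ≤ 1 → R ^ (9 / 16 : ℝ) ≤ |t| →
    ‖bI (cc (cw β α w l)) R s t - (((|t|)⁻¹ : ℝ) : ℂ) * Complex.exp (((2 * s * Real.log |t| : ℝ) : ℂ) * Complex.I) *
      (hF (st (Real.log w) β) (2 * s / t) * hF (sc l α) (s - R))‖ ≤ C * (Real.sqrt w * R ^ (-(1 / 8) : ℝ) / |t|)

/-- **Row BU3** (medium; from BUA, BUB, BU2, HFB, CWB, `RS.A_BK3` (integrability), `RS.A_BK4`). Let `M(t) = |t|⁻¹ |β̂_w(2s/t)| |α̂_l(s-R)|` (`β̂_w = hF (st (log w) β)`, `α̂_l = hF (sc l α)`), `T = R^(9/16)`. By BK4 for `sc l α`, `st (log w) β` (`bF (pr β α) k σ = hF β k hF α σ`) and the substitution `t = s v`: `(1/π) ∫ M² dt = |α̂_l(s-R)|²/s`.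
HFB: `|β̂_w(k)|² ≤ C w/(1 + (wk)²)²`, so `M² ≤ C t² w⁻³ R⁻⁴` and `M² ≤ C w/t²` (integrability), `∫_(|t| ≤ T) M² ≤ C T³ w⁻³ R⁻⁴ ≤ C R^(-1-3/16)`. BUA, BUB (`√w/(l R) ≤ R^(-1/8+1/8-1) ≤ R^(-7/8)`): `∫_(|t| ≤ T) |bI|² ≤ C T R^(-7/4) = C R^(-1-3/16)`. For `|t| ≥ T` by BU2 `|bI| = M + O(E)`, `E = C √w R^(-1/8)/|t|`, so
`||bI|² - M²| ≤ 2 M E + E² ≤ δ M² + (1 + 1/δ) E²`, `δ = R^(-1/32)`; `∫ M² ≤ C/R`, `∫_(|t| ≥ T) E² ≤ C w R^(-1/4)/T ≤ C R^(-1-1/16)`. Total error times `R`: `≤ C R^(-1/32)`. -/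
def BU3_stmt : Prop := ∀ α β : ℝ → ℝ, BA (1 / 8) α → BB (1 / 8) β → ∃ C R0 : ℝ, 0 < C ∧ 1 ≤ R0 ∧ ∀ R s w l : ℝ, R0 ≤ R → |s - R| ≤ R / 100 → w1 R ≤ w → w ≤ w0 R →
  R ^ (-(1 / 8) : ℝ) ≤ l → l ≤ 1 →
    |R * bk (cc (cw β α w l)) R s - R / s * ‖hF (sc l α) (s - R)‖ ^ 2| ≤ C * R ^ (-(1 / 32) : ℝ)

/-! ## 3. Amplitudes -/

/-- **Row ACC** (medium; from CWB). `cc c (x, τ) = w^(-1/2) l⁻¹ G(x/w, τ/l)`, `G(u, v) = β(u) α(v)` smooth with compact support: `‖D^n (G ∘ L)‖ ≤ ‖L‖^n sup ‖D^n G‖`, `‖L‖ ≤ 1/w` for `L(x, τ) = (x/w, τ/l)` (`ContinuousLinearMap.iteratedFDeriv_comp_right` and `ContinuousMultilinearMap.norm_compContinuousLinearMap_le`, or `norm_iteratedFDeriv_comp_le`).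
`cc (dY c) = ∂_τ (cc c)` (the factor `1/l`, and `G` replaced by `∂_v G`); `cc (lap c) = -(e^(2τ) ∂_xx + ∂_ττ - ∂_τ)(cc c)`: terms with `G` replaced by its derivatives and the factors `w⁻²`, `l⁻²`, `l⁻¹ ≤ w⁻²`, times `1` or `e^(2τ)` (bounded derivatives on `|τ| ≤ 1`; `G ∘ L = 0` elsewhere; Leibniz). (`RS.A_FL0` gives `TB` for `dY c`, `lap c`.) -/
def ACC_stmt : Prop := ∀ (k : ℕ) (α β : ℝ → ℝ), BA (1 / 8) α → BB (1 / 8) β → ∃ C : ℝ, 0 < C ∧ ∀ w l : ℝ, 0 < w → w ≤ l → l ≤ 1 →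
  AC k (C * (w ^ (-(1 / 2) : ℝ) / l)) (1 / w) w l (cw β α w l) ∧
  AC k (C * (w ^ (-(1 / 2) : ℝ) / l ^ 2)) (1 / w) w l (QU.dY (cw β α w l)) ∧
  AC k (C * (w ^ (-(5 / 2) : ℝ) / l)) (1 / w) w l (QU.lap (cw β α w l))

/-- **Row ACM** (short; Mathlib). Products; `norm_iteratedFDeriv_mul_le`. Off the closed box `cc c = 0` in a neighbourhood, so all derivatives vanish. (`k` may be replaced by a smaller number and `A`, `m` by larger ones.) -/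
def ACM_stmt : Prop := (∀ k : ℕ, ∃ C : ℝ, 0 < C ∧ ∀ (A A' m w l : ℝ) (c u : ℍ → ℂ), 0 ≤ A → 0 ≤ A' → 1 ≤ m → AC k A m w l c → QU.CD ∞ u →
    (∀ n : ℕ, n ≤ k → ∀ p : ℝ × ℝ, |p.1| ≤ w → |p.2| ≤ l → ‖iteratedFDeriv ℝ n (fun q : ℝ × ℝ => cc u q.1 q.2) p‖ ≤ A' * m ^ n) →
      AC k (C * (A * A')) m w l (fun z => c z * u z)) ∧
  (∀ (k k' : ℕ) (A A' m m' w w' l l' : ℝ) (c : ℍ → ℂ), k' ≤ k → A ≤ A' → 0 ≤ A → 0 ≤ m → m ≤ m' → w ≤ w' → l ≤ l' → AC k A m w l c → AC k' A' m' w' l' c) ∧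
  ∀ (k : ℕ) (A m w l : ℝ) (c : ℍ → ℂ), w ≤ 1 / 4 → l ≤ 1 / 4 → AC k A m w l c → TB (1 / 4) c

/-! ## 4. The kernel `gk` -/

/-- the coordinates `(x', τ')` of `b⁻¹ (x + i e^τ)` -/
def qm (b : SL(2, ℝ)) (x τ : ℝ) : ℝ × ℝ := ((b⁻¹ • pt x τ).re, Real.log (b⁻¹ • pt x τ).im)

/-- **Row GKD** (short-medium; port of `GKF_proof`, helper22/MS/GKF.lean, with `T = 0` and general amplitudes; `GKF_ent`, `GKF_int`, CV1). `pk R c1 z conj (pk R c2 (b⁻¹ z)) e^(-τ) = c1(z) conj(c2(b⁻¹ z)) Dk^(-1/2) e^(iR log Dk)`. Continuity in `b`: see `SCH_c2` in helper79/MS/SCH.lean. -/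
def GKD_stmt : Prop := ∀ (R : ℝ) (c1 c2 : ℍ → ℂ), TB (1 / 4) c1 → TB (1 / 4) c2 → Continuous (gk R c1 c2) ∧ ∀ b : SL(2, ℝ),
  (gk R c1 c2 b ≠ 0 → ∀ i j, |b.1 i j| ≤ 3) ∧
  gk R c1 c2 b = ∫ τ : ℝ, ∫ x : ℝ, cc c1 x τ * amk (fun z => conj (c2 z)) b x τ * Complex.exp (((R * Real.log (Dk b x τ) : ℝ) : ℂ) * Complex.I)

/-- **Row OVS** (short-medium; compare `GKF_ent`, `GKF_alg` in helper22/MS/GKF.lean). If `gk ≠ 0` there is `z` with `c1 z ≠ 0`, `c2 z' ≠ 0`, `z' = b⁻¹ z`. The entries `b = [[p, q], [s, t]]` are `≤ 3` (GKF_ent) and `z (s z' + t) = p z' + q`. Real parts: `q = Re(s z z') + t Re z - p Re z'`, so `|q| ≤ 4|s| + 3w + 3w'`. Imaginary parts: `p y' - t y = s Im(z z')`, so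
`|p - t| ≤ |p||1 - y'| + |t||1 - y| + 4|s| ≤ 12 l + 4|s|` (`|1 - y| ≤ 2 l` for `|log y| ≤ l ≤ 1/4`; `|z|, |z'| ≤ 2`). -/
def OVS_stmt : Prop := ∀ (R w w' l : ℝ) (c1 c2 : ℍ → ℂ) (b : SL(2, ℝ)), w ≤ 1 / 4 → w' ≤ 1 / 4 → l ≤ 1 / 4 →
  (∀ z : ℍ, c1 z ≠ 0 → |z.re| ≤ w ∧ |Real.log z.im| ≤ l) → (∀ z : ℍ, c2 z ≠ 0 → |z.re| ≤ w' ∧ |Real.log z.im| ≤ l) → gk R c1 c2 b ≠ 0 →
    (∀ i j, |b.1 i j| ≤ 3) ∧ |b.1 0 1| ≤ 12 * (w + w' + |b.1 1 0|) ∧ |b.1 0 0 - b.1 1 1| ≤ 12 * (l + |b.1 1 0|)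

/-- **Row AM1** (medium; port of helper49/MS/OV3.lean: `OV3_dir`, `OV3_bd`, `OV3_N`, `OV3_L`, `OV3_H`, `OV3_low`, `OV3_dx`, `OV3_dt`). Uniform bounds, all orders. `qm` is a smooth function of (the entries of `b⁻¹`, `x`, `τ`) on the open set where `OV3_N > 0` and the imaginary part is positive: `Im = e^τ/Dk` for determinant one; as in OV3 use
`OV1_A/OV1_B` (`log Im = τ - log Dk`, `Re (A/B) = Re (A conj B)/|B|²`). The lines `x ↦ (b, (x, τ))`, `τ ↦ (b, (x, τ))` stay in the open set. The `x`-derivatives of `log Dk` of order `n ≥ 1` are `-2 b₁₀` times those of order `n - 1` of the smooth function `(b₀₀ - b₁₀ x)/Dk`. -/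
def AM1_stmt : Prop := ∀ k : ℕ, ∃ M : ℝ, 1 ≤ M ∧ ∀ b : SL(2, ℝ), (∀ i j, |b.1 i j| ≤ 3) → (∀ x τ : ℝ, 0 < Dk b x τ) ∧
  (∀ τ : ℝ, ContDiff ℝ ∞ (fun x => qm b x τ) ∧ ContDiff ℝ ∞ (fun x => Dk b x τ ^ (-(1 / 2 : ℝ))) ∧ ContDiff ℝ ∞ (fun x => Real.log (Dk b x τ))) ∧
  (∀ x : ℝ, ContDiff ℝ ∞ (fun τ => qm b x τ) ∧ ContDiff ℝ ∞ (fun τ => Dk b x τ ^ (-(1 / 2 : ℝ))) ∧ ContDiff ℝ ∞ (fun τ => Real.log (Dk b x τ))) ∧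
  ∀ x τ : ℝ, |x| ≤ 1 / 4 → |τ| ≤ 1 / 4 → 1 / 200 ≤ Dk b x τ ∧ Dk b x τ ≤ 60 ∧
    (∀ n : ℕ, n ≤ k → ‖iteratedDeriv n (fun x => qm b x τ) x‖ ≤ M ∧ ‖iteratedDeriv n (fun τ => qm b x τ) τ‖ ≤ M ∧
      |iteratedDeriv n (fun x => Dk b x τ ^ (-(1 / 2 : ℝ))) x| ≤ M ∧ |iteratedDeriv n (fun τ => Dk b x τ ^ (-(1 / 2 : ℝ))) τ| ≤ M) ∧
    (∀ n : ℕ, 1 ≤ n → n ≤ k + 1 → |iteratedDeriv n (fun x => Real.log (Dk b x τ)) x| ≤ M * |b.1 1 0| ∧ |iteratedDeriv n (fun τ => Real.log (Dk b x τ)) τ| ≤ M) ∧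
    deriv (fun x => Real.log (Dk b x τ)) x = -2 * b.1 1 0 * (b.1 0 0 - b.1 1 0 * x) / Dk b x τ ∧
    deriv (fun τ => Real.log (Dk b x τ)) τ = 2 * b.1 1 0 ^ 2 * Real.exp (2 * τ) / Dk b x τ

/-- the amplitude of `gk` -/
def ga (c1 c2 : ℍ → ℂ) (b : SL(2, ℝ)) (x τ : ℝ) : ℂ := cc c1 x τ * amk (fun z => conj (c2 z)) b x τ

/-- **Row AM2** (short-medium; from AM1, ACM). `ga = cc c1 (x, τ) · conj (cc c2 (qm b x τ)) · Dk^(-1/2)` (`pt` of the coordinates of a point is the point). `x ↦ cc c1 (x, τ)` has `n`-th derivative `≤ A1 m^n` (the inclusion of a line has norm `1`: `norm_iteratedFDeriv_comp_le` or `ContinuousAffineMap`/`LinearMap` comp); composition: `norm_iteratedFDeriv_comp_le`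
(`‖D^i (cc c2)‖ ≤ A2 m^i ≤ A2 m^n` for `i ≤ n`, `‖D^i qm‖ ≤ M ≤ M^i`): `≤ n! A2 m^n M^n`; conjugation is an isometry; products: `norm_iteratedFDeriv_mul_le`. (`cc c1`, `cc c2` are smooth: CV1, second part.) -/
def AM2_stmt : Prop := ∀ k : ℕ, ∃ M : ℝ, 1 ≤ M ∧ ∀ (A1 A2 m v1 v2 l : ℝ) (c1 c2 : ℍ → ℂ) (b : SL(2, ℝ)), 0 ≤ A1 → 0 ≤ A2 → 1 ≤ m → v1 ≤ 1 / 4 → v2 ≤ 1 / 4 → l ≤ 1 / 4 →
  AC k A1 m v1 l c1 → AC k A2 m v2 l c2 → (∀ i j, |b.1 i j| ≤ 3) →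
    (∀ τ : ℝ, ContDiff ℝ ∞ (fun x => ga c1 c2 b x τ)) ∧ (∀ x : ℝ, ContDiff ℝ ∞ (fun τ => ga c1 c2 b x τ)) ∧
    (∀ x τ : ℝ, ga c1 c2 b x τ ≠ 0 → |x| ≤ v1 ∧ |τ| ≤ l) ∧
    ∀ x τ : ℝ, |x| ≤ 1 / 4 → |τ| ≤ 1 / 4 → ∀ n : ℕ, n ≤ k → ‖iteratedDeriv n (fun x => ga c1 c2 b x τ) x‖ ≤ M * (A1 * A2) * m ^ n ∧
      ‖iteratedDeriv n (fun τ => ga c1 c2 b x τ) τ‖ ≤ M * (A1 * A2) * m ^ n

/-- **Row OVD** (medium; from NSM, AM1, AM2, GKD, ACM; port of helper54/MS/OSC.lean). Let `gk ≠ 0`, so the entries are `≤ 3`; `c = b₁₀`, `a = b₀₀`. Trivially `|gk| ≤ 4 v1 l M A1 A2` (AM2 with `n = 0`, GKD); enough if `R|c| ≤ m`. Let `R|c| > m`. Case A: `|a - c x| ≥ 1/8` for all `|x| ≤ 1/4`. For fixed `|τ| ≤ l` NSM in `x` on `[-v1, v1]`, `θ = R log Dk`,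
`|θ'| ≥ R · 2|c| (1/8)/60 =: λ`, `|θ^(n)| ≤ R M |c| ≤ 240 M λ`: at most `C v1 A1 A2 (m/λ)^k`; integrate over `|τ| ≤ l`. Case B: `|a - c x₀| < 1/8` for some `|x₀| ≤ 1/4`, so `|a - c x| ≤ 1/8 + |c|/2` on the box. If the amplitude is not zero at some point of the box then `Dk = Im z / Im (b⁻¹ z) ≥ e^(-1/2) ≥ 0.6` there, and
`Dk ≤ (1/8 + |c|/2)² + 1.65 c²`, so `|c| ≥ 1/2`. Interchange the integrals (continuous, compact support) and for fixed `x` NSM in `τ` on `[-l, l]`: `|θ'| ≥ R · 2 c² e^(-1/2)/60 ≥ R/200 =: λ`, `|θ^(n)| ≤ R M = 200 M λ`: at most `C l A1 A2 (200 m/R)^k ≤ C' l A1 A2 (m/(R|c|))^k` (`|c| ≤ 3`). Finally `(m/(R|c|))^k ≤ 2^k (1 + R|c|/m)^(-k)`. -/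
def OVD_stmt : Prop := ∀ k : ℕ, ∃ C : ℝ, 0 < C ∧ ∀ (R A1 A2 m v1 v2 l : ℝ) (c1 c2 : ℍ → ℂ) (b : SL(2, ℝ)), 1 ≤ R → 0 ≤ A1 → 0 ≤ A2 → 1 ≤ m → 0 < v1 → v1 ≤ 1 / 4 → v2 ≤ 1 / 4 →
  0 < l → l ≤ 1 / 4 → AC k A1 m v1 l c1 → AC k A2 m v2 l c2 →
    ‖gk R c1 c2 b‖ ≤ C * (A1 * A2 * v1 * l) / (1 + R * |b.1 1 0| / m) ^ k

/-- **Row UKB** (short-medium; from OVD, OVS, ACC, ACM). `c1 = cw β α (w1 R) l`, `c2 = cw β α (w0 R) l`, `l = R^(-η)`, are `AC k` with `m = 1/w1 R = R^(3/8)` and `A1 = C w1^(-1/2)/l`, `A2 = C w0^(-1/2)/l`. OVD with `k = ⌈10/ε⌉`: `R |gk| ≤ C R (w1/w0)^(1/2) l⁻¹ (1 + R^(5/8)|b₁₀|)^(-k) = C R^(15/16+η) (..)^(-k)`. If `|b₁₀| > R^(-5/8+ε)` then `ut = 0` and this is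
`≤ C R^(15/16+η-10) ≤ R^(-2)`. If `|b₁₀| ≤ R^(-5/8+ε)` and `uk b ≠ 0`, then by OVS `|b₀₁| ≤ 12 (2 R^(-1/4) + R^(-5/8+ε)) ≤ 36 R^(-1/4)` and `|b₀₀ - b₁₁| ≤ 24 R^(-η)`: `b ∈ Bx C η ε R` for `C ≥ 36`, so `ut b = uk b` (also if `uk b = 0`). -/
def UKB_stmt : Prop := ∀ α β : ℝ → ℝ, BA (1 / 8) α → BB (1 / 8) β → ∀ η ε : ℝ, 0 < η → η ≤ 1 / 20 → 0 < ε → ε ≤ 1 / 20 → ∃ C0 R0 : ℝ, 1 ≤ C0 ∧ 1 ≤ R0 ∧
  ∀ C R : ℝ, C0 ≤ C → R0 ≤ R → ∀ b : SL(2, ℝ), ‖uk β α η R b - ut β α C η ε R b‖ ≤ R ^ (-2 : ℝ) ∧ ‖ut β α C η ε R b‖ ≤ C * R ^ (15 / 16 + η) ∧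
    (uk β α η R b ≠ 0 → ∀ i j, |b.1 i j| ≤ 3)

/-! ## 5. Volumes, Schur's test, frame bounds -/

/-- **Row VOX** (medium; from `RS.A_GMG`; compare row XVO of EN, `Pool/Agent/*/EN/XVO.lean`). In the coordinates `b = toSL2R (X + iY) * kM θ` of GMG (fourth part, for the indicator of the closed set): `b₁₀ = -sin θ/√Y`, `b₁₁ = cos θ/√Y`, `b₀₁ = √Y sin θ + X cos θ/√Y`, `b₀₀ = √Y cos θ - X sin θ/√Y`. The rows have square norms `1/Y ≤ 18` and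
`(X² + Y²)/Y ≤ 18`, so `1/18 ≤ Y ≤ 18`, `|sin θ| ≤ x √Y ≤ 5 x` (a set of `θ` of measure `≤ 60 x`) and `|cos θ| ≥ 3/4` (`x ≤ 1/8`, `√18/8 ≤ 0.54`). For fixed `θ`, `Y` use the variable `v = b₀₁` instead of `X` (`dX = (√Y/|cos θ|) dv`, `≤ 6 dv`): `b₀₀ = √Y/cos θ - v tan θ`. So the measure is at most
`C x ∫_(|v| ≤ y) |{Y ∈ [1/18, 18] : |√Y/cos θ - cos θ/√Y - v tan θ| ≤ z}| dv`, and the function `Y ↦ √Y/cos θ - cos θ/√Y` is monotone with derivative of absolute value `≥ 1/(2√18) ≥ 1/9`, so the last measure is `≤ 18 z`. -/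
def VOX_stmt : Prop := ∃ C : ℝ, 0 < C ∧ ∀ x y z : ℝ, 0 < x → x ≤ 1 / 8 → 0 < y → 0 < z →
  mG {b : SL(2, ℝ) | (∀ i j, |b.1 i j| ≤ 3) ∧ |b.1 1 0| ≤ x ∧ |b.1 0 1| ≤ y ∧ |b.1 0 0 - b.1 1 1| ≤ z} ≤ ENNReal.ofReal (C * (x * y * z))

/-- **Row SCF** (short-medium; from `MS.SCH_proof` (helper79/MS/SCH.lean), `RS.A_GDU`, `RS.A_GWB`, `RS.A_GYN`). Schur's test for one packet. Let `v = Wf f u` and `W = sy Γ F f̄ v` (in `InvC`, GDU for `f̄`, `κ = (∫‖f‖)²` by GYN). SCH with `e = e' = f`, `B = D = univ`: `‖Wf f W‖ ≤ S ‖v‖`. `nn F W = ∫_F W W̄ = ∫ v Wf f̄ W̄ = ∫ v conj(Wf f W) ≤ ‖v‖ S ‖v‖` and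
`‖v‖² = ∫ v conj(Wf f u) = ∫ v Wf f̄ ū = ∫_F W ū ≤ (nn F W)^(1/2) (nn F u)^(1/2) ≤ √S ‖v‖ (nn F u)^(1/2)` (`conj (Wf f u) = Wf f̄ ū`, GWB). -/
def SCF_stmt : Prop := ∀ (Γ : Subgroup SL(2, ℝ)) (F : Set ℍ) (f : ℍ → ℂ) (S : ℝ), QU.SurfaceGroup Γ → QU.NiceDom Γ F → Continuous f → HasCompactSupport f → 0 ≤ S →
  ∫⁻ b, ENNReal.ofReal ‖∫ z : ℍ, f z * conj (f (b⁻¹ • z))‖ ∂mG ≤ ENNReal.ofReal S →
    ∀ u : ℍ → ℂ, InvC Γ u → iR F (fun g => ‖Wf f u g‖ ^ 2) ≤ S * nn F u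

/-- **Row GKI** (medium; from OVD, OVS, VOX, ACM, `RS.A_GMG`). Let `X = w R` (`1/X ≤ w` as `w² ≥ 1/R`). For `gk ≠ 0` let `j` be the least natural number with `|b₁₀| ≤ 2^j/X`: by OVD (`k = 8`, `m = 1/w`) `‖gk b‖ ≤ C A² w l 2^(-8j)` and by OVS `b ∈ S_j = {entries ≤ 3, |b₁₀| ≤ 2^j/X, |b₀₁| ≤ 36 · 2^j w, |b₀₀ - b₁₁| ≤ 24 · 2^j l}` (`2^j/X ≤ 2^j w ≤ 2^j l`). `mG S_j ≤ C (2^j/X)(2^j w)(2^j l)`:
by VOX if `2^j/X ≤ 1/8`; otherwise `mG S_j ≤ mG {entries ≤ 3} = C ≤ C (8 · 2^j/X)³` (a compact set: GMG). So `∫⁻ ‖gk‖ ≤ Σ_j C A² w l 2^(-8j) 2^(3j) w l/X = C' A² w l²/R` (`lintegral_tsum` for the sum of the indicators of the `S_j`, which are closed). -/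
def GKI_stmt : Prop := ∃ C : ℝ, 0 < C ∧ ∀ (R w l A : ℝ) (c : ℍ → ℂ), 1 ≤ R → R ^ (-(1 / 2) : ℝ) ≤ w → w ≤ l → l ≤ 1 / 4 → 0 ≤ A → AC 8 A (1 / w) w l c →
  ∫⁻ b, ENNReal.ofReal ‖gk R c c b‖ ∂mG ≤ ENNReal.ofReal (C * (A ^ 2 * w * l ^ 2 / R))

/-- **Row GFB** (short; from SCF, GKI, ACM, `RS.A_FL0`). `f = pk R c`; `gk R c c b = ∫ f z * conj (f (b⁻¹ • z))` by definition. -/
def GFB_stmt : Prop := ∃ C : ℝ, 0 < C ∧ ∀ (Γ : Subgroup SL(2, ℝ)) (F : Set ℍ) (R w l A : ℝ) (c : ℍ → ℂ), QU.SurfaceGroup Γ → QU.NiceDom Γ F → 1 ≤ R →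
  R ^ (-(1 / 2) : ℝ) ≤ w → w ≤ l → l ≤ 1 / 4 → 0 ≤ A → AC 8 A (1 / w) w l c → ∀ u : ℍ → ℂ, InvC Γ u →
    qn F c R u ≤ C * (A ^ 2 * w * l ^ 2 / R) * nn F u

/-- **Row EFU** (medium; from ACC, ACM, CWB, `RS.A_FL4`, `RS.A_GYN`, `RS.A_CV1`, `RS.A_FL0`). The eigenvalue is far from `1/4 + R²`: `|1/4 + R² - lam| ≥ R²/200` (if `lam ≥ 1/4` write `lam = 1/4 + s²`, `|R² - s²| ≥ (R/100) R`; otherwise `≥ R²`). FL4: `|1/4 + R² - lam| ‖F_c‖ ≤ (1 + 2R) ‖F_(dY c)‖ + ‖F_(lap c)‖` (in `L²(Γ\G)`), and `‖F_(c')‖ ≤ (∫ ‖pk R c'‖) ‖φ‖` (GYN).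
`∫ ‖pk R c'‖ = ∫ |c'| y^(1/2) ≤ C w l sup |c'|` (CV1), so by ACC (`k = 0`) it is `≤ C w^(1/2)/l` for `dY c` and `≤ C w^(-3/2)` for `lap c`. So `‖F_c‖ ≤ (C/R²)(R w^(1/2)/l + w^(-3/2)) ‖φ‖ ≤ C R⁻¹ ‖φ‖` (`w^(1/2) ≤ R^(-1/8) ≤ l`, `w^(-3/2) ≤ R^(9/16)`). -/
def EFU_stmt : Prop := ∀ α β : ℝ → ℝ, BA (1 / 8) α → BB (1 / 8) β → ∃ C : ℝ, 0 < C ∧ ∀ (Γ : Subgroup SL(2, ℝ)) (F : Set ℍ) (R w l lam : ℝ) (φ : ℍ → ℂ),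
  QU.SurfaceGroup Γ → QU.NiceDom Γ F → 1 ≤ R → w1 R ≤ w → w ≤ w0 R → R ^ (-(1 / 8) : ℝ) ≤ l → l ≤ 1 → EigL Γ lam φ →
  (∀ s : ℝ, 0 ≤ s → lam = 1 / 4 + s ^ 2 → R / 100 < |s - R|) → qn F (cw β α w l) R φ ≤ C * R ^ (-2 : ℝ) * nn F φ

/-- **Row F1** (short-medium; from BU3, HFB, EFU, CWB, `RS.A_NR5`, `RS.A_GR2`). The sharp frame bound. NR5 for `f = pk R c`: the maximum `q` of `qn/nn` is attained at an eigenfunction `v` with eigenvalue `lam` (or `q = 0`). If `lam = 1/4 + s²`, `s ≥ 0`, `|s - R| ≤ R/100`: `q = bk (cc c) R s` (GR2), `R q ≤ (R/s) |hF α (l(s-R))|² + C R^(-1/32)` (BU3, HFB). If `s ≥ R` the first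
term is `≤ 1`; if `0 < R - s ≤ √R` it is `≤ R/s ≤ 1 + 2/√R`; if `R - s > √R` it is `≤ 2 (C/(l |s-R|))² ≤ C R^(1/4-1) ≤ 1`. Otherwise EFU: `R q ≤ C/R ≤ 1`. For large `R` all are `≤ 1 + R^(-1/40)`. -/
def F1_stmt : Prop := ∀ α β : ℝ → ℝ, BA (1 / 8) α → BB (1 / 8) β → ∃ R0 : ℝ, 1 ≤ R0 ∧ ∀ (Γ : Subgroup SL(2, ℝ)) (F : Set ℍ) (R w l : ℝ),
  QU.SurfaceGroup Γ → QU.NiceDom Γ F → R0 ≤ R → w1 R ≤ w → w ≤ w0 R → R ^ (-(1 / 8) : ℝ) ≤ l → l ≤ 1 → ∀ u : ℍ → ℂ, InvC Γ u →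
    R * qn F (cw β α w l) R u ≤ (1 + R ^ (-(1 / 40) : ℝ)) * nn F u

end

end Pool.Agent.RPQ
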