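import Pool.Agent.helper29.RPQ.SpecP
import Pool.Agent.helper62.RS.GLC
import Pool.Agent.helper92.RS.GMG
import Pool.Agent.helper27.EN.XVO


/-!
# MP_07c750, project RPQ, row VOX: the volume of a thin box of `SL(2, ℝ)`
-/

set_option autoImplicit false

open scoped MatrixGroups ContDiff Topology UpperHalfPlane ComplexConjugate
open UpperHalfPlane MeasureTheory Filter Set

namespace Pool.Agent.RPQ

open Pool.Agent.RS
open Pool.Agent.MS (BA BB st pf gk Dk amk)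

/-- the plane set -/
def VOX_S (s c v0 δ u0 z : ℝ) : Set (ℝ × ℝ) := {p | 1 / 18 ≤ p.2 ∧ p.2 ≤ 18 ∧
  |√p.2 * s + p.1 / √p.2 * c - v0| ≤ δ ∧ |√p.2 - c ^ 2 / √p.2 - u0| ≤ z}

theorem VOX_meas (s c v0 δ u0 z : ℝ) : MeasurableSet (VOX_S s c v0 δ u0 z) := by
  have h1 : MeasurableSet {p : ℝ × ℝ | 1 / 18 ≤ p.2} := measurableSet_le measurable_const measurable_snd
  have h2 : MeasurableSet {p : ℝ × ℝ | p.2 ≤ 18} := measurableSet_le measurable_snd measurable_const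
  have hs : Measurable fun p : ℝ × ℝ => √p.2 := (Real.continuous_sqrt.comp continuous_snd).measurable
  have h3 : MeasurableSet {p : ℝ × ℝ | |√p.2 * s + p.1 / √p.2 * c - v0| ≤ δ} :=
    measurableSet_le ((((hs.mul_const s).add ((measurable_fst.div hs).mul_const c)).sub_const v0).abs) measurable_const
  have h4 : MeasurableSet {p : ℝ × ℝ | |√p.2 - c ^ 2 / √p.2 - u0| ≤ z} :=
    measurableSet_le (((hs.sub (measurable_const.div hs)).sub_const u0).abs) measurable_const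
  exact h1.inter (h2.inter (h3.inter h4))

theorem VOX_sqrt {Y : ℝ} (h1 : 1 / 18 ≤ Y) (h2 : Y ≤ 18) : 0 < √Y ∧ √Y * √Y = Y ∧ √Y ≤ 4.3 := by
  have h0 : 0 < Y := by linarith
  refine ⟨Real.sqrt_pos.2 h0, Real.mul_self_sqrt h0.le, ?_⟩
  rw [Real.sqrt_le_left (by norm_num)]
  norm_num
  linarith

theorem VOX_Y {c u0 z Y Y' : ℝ} (h1 : 1 / 18 ≤ Y) (h2 : Y ≤ 18) (h1' : 1 / 18 ≤ Y') (h2' : Y' ≤ 18)
    (h : |√Y - c ^ 2 / √Y - u0| ≤ z) (h' : |√Y' - c ^ 2 / √Y' - u0| ≤ z) (hYY : Y ≤ Y') : Y' - Y ≤ 18 * z := by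
  obtain ⟨a1, a2, a3⟩ := VOX_sqrt h1 h2
  obtain ⟨b1, b2, b3⟩ := VOX_sqrt h1' h2'
  have hm : √Y ≤ √Y' := Real.sqrt_le_sqrt hYY
  have h3 : c ^ 2 / √Y' ≤ c ^ 2 / √Y := div_le_div_of_nonneg_left (sq_nonneg c) a1 hm
  have h4 := abs_le.1 h
  have h5 := abs_le.1 h'
  have h6 : √Y' - √Y ≤ 2 * z := by linarith
  have h7 : Y' - Y = (√Y' - √Y) * (√Y' + √Y) := by nlinarith
  rw [h7]
  have h8 : 0 ≤ √Y' - √Y := by linarith
  nlinarith

theorem VOX_area (s c v0 δ u0 z : ℝ) (hc : 3 / 4 ≤ |c|) (hδ : 0 < δ) (hz : 0 < z) :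
    (volume : Measure (ℝ × ℝ)) (VOX_S s c v0 δ u0 z) ≤ ENNReal.ofReal (432 * (δ * z)) := by
  rcases (VOX_S s c v0 δ u0 z).eq_empty_or_nonempty with h0 | ⟨p0, hp0⟩
  · rw [h0]
    simp
  · obtain ⟨g1, g2, g3, g4⟩ := hp0
    rw [Measure.volume_eq_prod, Measure.prod_apply_symm (VOX_meas s c v0 δ u0 z)]
    have hb : ∀ Y : ℝ, (volume : Measure ℝ) ((fun X => (X, Y)) ⁻¹' VOX_S s c v0 δ u0 z) ≤
        (Icc (p0.2 - 18 * z) (p0.2 + 18 * z)).indicator (fun _ => ENNReal.ofReal (12 * δ)) Y := by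
      intro Y
      by_cases hY : ∃ X, (X, Y) ∈ VOX_S s c v0 δ u0 z
      · obtain ⟨X, k1, k2, k3, k4⟩ := hY
        simp only [] at k1 k2 k3 k4
        have hYi : Y ∈ Icc (p0.2 - 18 * z) (p0.2 + 18 * z) := by
          rcases le_total Y p0.2 with h | h
          · have := VOX_Y k1 k2 g1 g2 k4 g4 h
            exact ⟨by linarith, by linarith⟩
          · have := VOX_Y g1 g2 k1 k2 g4 k4 h
            exact ⟨by linarith, by linarith⟩
        rw [Set.indicator_of_mem hYi]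
        obtain ⟨a1, a2, a3⟩ := VOX_sqrt k1 k2
        have hc0 : c ≠ 0 := by
          intro h
          rw [h, abs_zero] at hc
          linarith
        have hsub : (fun X => (X, Y)) ⁻¹' VOX_S s c v0 δ u0 z ⊆
            Icc ((v0 - √Y * s) * (√Y / c) - 6 * δ) ((v0 - √Y * s) * (√Y / c) + 6 * δ) := by
          intro X' hX'
          obtain ⟨-, -, m3, -⟩ := hX'
          simp only [] at m3
          have e1 : X' - (v0 - √Y * s) * (√Y / c) = (√Y * s + X' / √Y * c - v0) * (√Y / c) := by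
            field_simp
            ring
          have e2 : |√Y / c| ≤ 6 := by
            rw [abs_div, abs_of_pos a1, div_le_iff₀ (by linarith)]
            nlinarith
          have e3 : |X' - (v0 - √Y * s) * (√Y / c)| ≤ 6 * δ := by
            rw [e1, abs_mul]
            nlinarith [abs_nonneg (√Y * s + X' / √Y * c - v0), abs_nonneg (√Y / c)]
          have e4 := abs_le.1 e3
          exact ⟨by linarith, by linarith⟩
        refine (measure_mono hsub).trans ?_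
        rw [Real.volume_Icc]
        exact ENNReal.ofReal_le_ofReal (by linarith)
      · have h1 : (fun X => (X, Y)) ⁻¹' VOX_S s c v0 δ u0 z = ∅ := by
          ext X
          simp only [Set.mem_preimage, Set.mem_empty_iff_false, iff_false]
          exact fun h => hY ⟨X, h⟩
        rw [h1, measure_empty]
        exact zero_le
    refine (lintegral_mono hb).trans ?_
    rw [lintegral_indicator measurableSet_Icc, setLIntegral_const, Real.volume_Icc,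
      ← ENNReal.ofReal_mul (by positivity)]
    refine ENNReal.ofReal_le_ofReal ?_
    nlinarith

/-- the sets in the upper half plane -/
def VOX_H (s c v0 δ u0 z : ℝ) : Set ℍ := {w | (w.re, w.im) ∈ VOX_S s c v0 δ u0 z}

theorem VOX_vol (s c v0 δ u0 z : ℝ) (hc : 3 / 4 ≤ |c|) (hδ : 0 < δ) (hz : 0 < z) :
    (volume : Measure ℍ) (VOX_H s c v0 δ u0 z) ≤ ENNReal.ofReal (324 * (432 * (δ * z))) := by
  have hm : MeasurableSet (VOX_H s c v0 δ u0 z) := by
    have h1 : Measurable fun w : ℍ => (w.re, w.im) :=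
      (UpperHalfPlane.continuous_re.measurable).prodMk (UpperHalfPlane.continuous_im.measurable)
    exact h1 (VOX_meas s c v0 δ u0 z)
  rw [volume_eq_lintegral]
  have h1 : ∫⁻ w : ℂ in (↑) '' VOX_H s c v0 δ u0 z, (((1 / ‖w.im‖₊) ^ 2 : NNReal) : ENNReal) ≤
      ∫⁻ _ : ℂ in (↑) '' VOX_H s c v0 δ u0 z, ENNReal.ofReal 324 := by
    refine setLIntegral_mono' (measurableEmbedding_coe.measurableSet_image.mpr hm) ?_
    rintro _ ⟨w, hw, rfl⟩
    have h2 : 1 / 18 ≤ w.im := hw.1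
    have h3 : (((1 / ‖(w : ℂ).im‖₊) ^ 2 : NNReal) : ENNReal) = ENNReal.ofReal ((1 / w.im) ^ 2) := by
      rw [ENNReal.ofReal]
      congr 1
      ext
      rw [Real.coe_toNNReal _ (by positivity)]
      push_cast
      rw [UpperHalfPlane.coe_im, Real.norm_eq_abs, abs_of_pos w.im_pos]
    rw [h3]
    refine ENNReal.ofReal_le_ofReal ?_
    have h4 : 1 / w.im ≤ 18 := by
      rw [div_le_iff₀ w.im_pos]
      linarith
    have h5 : 0 ≤ 1 / w.im := by have := w.im_pos; positivity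
    nlinarith
  refine h1.trans ?_
  rw [setLIntegral_const]
  have h2 : (volume : Measure ℂ) ((↑) '' VOX_H s c v0 δ u0 z) ≤ ENNReal.ofReal (432 * (δ * z)) := by
    have h3 : ((↑) '' VOX_H s c v0 δ u0 z : Set ℂ) ⊆ Complex.measurableEquivRealProd ⁻¹' VOX_S s c v0 δ u0 z := by
      rintro _ ⟨w, hw, rfl⟩
      exact hw
    refine (measure_mono h3).trans ?_
    rw [Complex.volume_preserving_equiv_real_prod.measure_preimage (VOX_meas s c v0 δ u0 z).nullMeasurableSet]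
    exact VOX_area s c v0 δ u0 z hc hδ hz
  refine (mul_le_mul_right h2 _).trans ?_
  rw [← ENNReal.ofReal_mul (by norm_num)]

theorem VOX_mem (w : ℍ) (θ x y z : ℝ) (hx : x ≤ 1 / 8)
    (h0 : ∀ i j : Fin 2, |(toSL2R w * RS.kM θ).1 i j| ≤ 3) (h1 : |(toSL2R w * RS.kM θ).1 1 0| ≤ x)
    (h2 : |(toSL2R w * RS.kM θ).1 0 1| ≤ y)
    (h3 : |(toSL2R w * RS.kM θ).1 0 0 - (toSL2R w * RS.kM θ).1 1 1| ≤ z) :
    |Real.sin θ| ≤ 5 * x ∧ 3 / 4 ≤ |Real.cos θ| ∧ 1 / 18 ≤ w.im ∧ w.im ≤ 18 ∧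
      |√w.im * Real.sin θ + w.re / √w.im * Real.cos θ| ≤ y ∧
      |√w.im - Real.cos θ ^ 2 / √w.im - (√w.im * Real.sin θ + w.re / √w.im * Real.cos θ) * Real.sin θ| ≤ z := by
  obtain ⟨e00, e01, e10, e11⟩ := EN.XVO_ent w θ
  have hy : 0 < w.im := w.im_pos
  set r : ℝ := √w.im with hr
  have hr0 : 0 < r := Real.sqrt_pos.2 hy
  have hrr : r * r = w.im := Real.mul_self_sqrt hy.le
  have a00 := h0 0 0
  have a01 := h0 0 1
  have a10 := h0 1 0
  have a11 := h0 1 1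
  rw [e00] at a00
  rw [e01] at a01
  rw [e10] at a10 h1
  rw [e11] at a11
  rw [e01] at h2
  rw [e00, e11] at h3
  have hsc := Real.sin_sq_add_cos_sq θ
  have sq : ∀ x : ℝ, |x| ≤ 3 → x ^ 2 ≤ 9 := fun x hx => by
    have := abs_le.1 hx
    nlinarith [this.1, this.2]
  have b00 := sq _ a00
  have b01 := sq _ a01
  have b10 := sq _ a10
  have b11 := sq _ a11
  have s1 : (1 / r) ^ 2 ≤ 18 := by
    have : (1 / r) ^ 2 = (1 / r * (-Real.sin θ)) ^ 2 + (1 / r * Real.cos θ) ^ 2 := by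
      have e : (1 / r * (-Real.sin θ)) ^ 2 + (1 / r * Real.cos θ) ^ 2 =
        (1 / r) ^ 2 * (Real.sin θ ^ 2 + Real.cos θ ^ 2) := by ring
      rw [e, hsc, mul_one]
    linarith
  have s2 : r ^ 2 + (w.re / r) ^ 2 ≤ 18 := by
    have : r ^ 2 + (w.re / r) ^ 2 = (r * Real.cos θ + w.re / r * (-Real.sin θ)) ^ 2 +
        (r * Real.sin θ + w.re / r * Real.cos θ) ^ 2 := by
      have e : (r * Real.cos θ + w.re / r * (-Real.sin θ)) ^ 2 +
        (r * Real.sin θ + w.re / r * Real.cos θ) ^ 2 =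
        (r ^ 2 + (w.re / r) ^ 2) * (Real.sin θ ^ 2 + Real.cos θ ^ 2) := by ring
      rw [e, hsc, mul_one]
    linarith
  have y1 : 1 ≤ 18 * w.im := by
    rw [← hrr]
    have e : (1 / r) ^ 2 * (r * r) = 1 := by field_simp
    nlinarith [mul_pos hr0 hr0]
  have y2 : w.im ≤ 18 := by
    rw [← hrr]
    nlinarith [sq_nonneg (w.re / r)]
  have r3 : r ≤ 4.3 := (VOX_sqrt (by linarith) y2).2.2
  have hx0 : 0 ≤ x := (abs_nonneg _).trans h1
  have e1 : |1 / r * (-Real.sin θ)| = |Real.sin θ| / r := by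
    rw [abs_mul, abs_neg, abs_of_pos (by positivity)]
    ring
  rw [e1, div_le_iff₀ hr0] at h1
  have t1 : |Real.sin θ| ≤ 4.3 * x := h1.trans (by nlinarith)
  have t2 : |Real.sin θ| ≤ 0.54 := by linarith
  have t3 : Real.sin θ ^ 2 ≤ 0.54 ^ 2 := by
    rw [← sq_abs]
    exact pow_le_pow_left₀ (abs_nonneg _) t2 2
  refine ⟨by linarith, ?_, by linarith, y2, h2, ?_⟩
  · refine abs_le_of_sq_le_sq' ?_ (abs_nonneg _) |>.2
    rw [sq_abs]
    norm_num at t3 ⊢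
    linarith
  · have e2 : r - Real.cos θ ^ 2 / r - (r * Real.sin θ + w.re / r * Real.cos θ) * Real.sin θ =
        (r * Real.cos θ + w.re / r * (-Real.sin θ) - 1 / r * Real.cos θ) * Real.cos θ := by
      have e3 : r = r * (Real.sin θ ^ 2 + Real.cos θ ^ 2) := by rw [hsc, mul_one]
      have e4 : r - Real.cos θ ^ 2 / r - (r * Real.sin θ + w.re / r * Real.cos θ) * Real.sin θ =
          r * (Real.sin θ ^ 2 + Real.cos θ ^ 2) - Real.cos θ ^ 2 / r -
            (r * Real.sin θ + w.re / r * Real.cos θ) * Real.sin θ := by rw [← e3]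
      rw [e4]
      ring
    rw [e2, abs_mul]
    have hc1 := Real.abs_cos_le_one θ
    have hz0 : 0 ≤ z := (abs_nonneg _).trans h3
    nlinarith [abs_nonneg (Real.cos θ), abs_nonneg (r * Real.cos θ + w.re / r * (-Real.sin θ) - 1 / r * Real.cos θ)]

theorem VOX_slice (θ y z : ℝ) (hy : 0 < y) (hz : 0 < z) (hc : 3 / 4 ≤ |Real.cos θ|) :
    (volume : Measure ℍ) {w : ℍ | 1 / 18 ≤ w.im ∧ w.im ≤ 18 ∧
      |√w.im * Real.sin θ + w.re / √w.im * Real.cos θ| ≤ y ∧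
      |√w.im - Real.cos θ ^ 2 / √w.im - (√w.im * Real.sin θ + w.re / √w.im * Real.cos θ) * Real.sin θ| ≤ z} ≤
      ENNReal.ofReal (600000 * (y * z)) := by
  obtain ⟨δ, hδ⟩ : ∃ δ : ℝ, δ = min y z := ⟨_, rfl⟩
  have d0 : 0 < δ := by rw [hδ]; exact lt_min hy hz
  have dy : δ ≤ y := by rw [hδ]; exact min_le_left _ _
  have dz : δ ≤ z := by rw [hδ]; exact min_le_right _ _
  obtain ⟨N, hN⟩ : ∃ N : ℕ, N = ⌊y / δ⌋₊ + 1 := ⟨_, rfl⟩
  have hN1 : (N : ℝ) ≤ 2 * (y / δ) := by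
    have h1 : (⌊y / δ⌋₊ : ℝ) ≤ y / δ := Nat.floor_le (by positivity)
    have h2 : 1 ≤ y / δ := by
      rw [le_div_iff₀ d0]
      linarith
    rw [hN]
    push_cast
    linarith
  obtain ⟨vv, hvv⟩ : ∃ vv : ℕ → ℝ, ∀ i, vv i = -y + (2 * i + 1) * δ := ⟨fun i => -y + (2 * i + 1) * δ, fun _ => rfl⟩
  have hsub : {w : ℍ | 1 / 18 ≤ w.im ∧ w.im ≤ 18 ∧
      |√w.im * Real.sin θ + w.re / √w.im * Real.cos θ| ≤ y ∧
      |√w.im - Real.cos θ ^ 2 / √w.im - (√w.im * Real.sin θ + w.re / √w.im * Real.cos θ) * Real.sin θ| ≤ z} ⊆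
      ⋃ i ∈ Finset.range N, VOX_H (Real.sin θ) (Real.cos θ) (vv i) δ (vv i * Real.sin θ) (2 * z) := by
    rintro w ⟨g1, g2, g3, g4⟩
    obtain ⟨v, hv⟩ : ∃ v : ℝ, v = √w.im * Real.sin θ + w.re / √w.im * Real.cos θ := ⟨_, rfl⟩
    rw [← hv] at g3 g4
    have g5 := abs_le.1 g3
    have h0 : 0 ≤ (v + y) / (2 * δ) := by
      apply div_nonneg <;> linarith
    have hi1 : (⌊(v + y) / (2 * δ)⌋₊ : ℝ) ≤ (v + y) / (2 * δ) := Nat.floor_le h0
    have hi2 : (v + y) / (2 * δ) < ⌊(v + y) / (2 * δ)⌋₊ + 1 := Nat.lt_floor_add_one _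
    rw [le_div_iff₀ (by positivity)] at hi1
    rw [div_lt_iff₀ (by positivity)] at hi2
    simp only [Set.mem_iUnion]
    have hiN : ⌊(v + y) / (2 * δ)⌋₊ ∈ Finset.range N := by
      rw [Finset.mem_range, hN]
      refine Nat.lt_succ_of_le (Nat.floor_le_floor ?_)
      rw [div_le_div_iff₀ (by positivity) d0]
      nlinarith
    refine ⟨_, hiN, g1, g2, ?_, ?_⟩
    · show |√w.im * Real.sin θ + w.re / √w.im * Real.cos θ - vv _| ≤ δ
      rw [← hv, hvv]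
      refine abs_le.2 ⟨by linarith, by linarith⟩
    · show |√w.im - Real.cos θ ^ 2 / √w.im - vv _ * Real.sin θ| ≤ 2 * z
      have h5 : |(v - vv ⌊(v + y) / (2 * δ)⌋₊) * Real.sin θ| ≤ δ := by
        rw [abs_mul]
        have h6 : |v - vv ⌊(v + y) / (2 * δ)⌋₊| ≤ δ := by
          rw [hvv]
          refine abs_le.2 ⟨by linarith, by linarith⟩
        have h7 := Real.abs_sin_le_one θ
        nlinarith [abs_nonneg (Real.sin θ), abs_nonneg (v - vv ⌊(v + y) / (2 * δ)⌋₊)]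
      have h8 : √w.im - Real.cos θ ^ 2 / √w.im - vv ⌊(v + y) / (2 * δ)⌋₊ * Real.sin θ =
          (√w.im - Real.cos θ ^ 2 / √w.im - v * Real.sin θ) + (v - vv ⌊(v + y) / (2 * δ)⌋₊) * Real.sin θ := by ring
      rw [h8]
      refine (abs_add_le _ _).trans ?_
      linarith
  refine (measure_mono hsub).trans ((measure_biUnion_finset_le _ _).trans ?_)
  refine (Finset.sum_le_sum (fun i _ => VOX_vol (Real.sin θ) (Real.cos θ) (vv i) δ (vv i * Real.sin θ) (2 * z) hc d0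
    (by linarith))).trans ?_
  rw [Finset.sum_const, Finset.card_range, nsmul_eq_mul]
  have h1 : ((N : ℕ) : ENNReal) = ENNReal.ofReal (N : ℝ) := by
    rw [ENNReal.ofReal_natCast]
  rw [h1, ← ENNReal.ofReal_mul (Nat.cast_nonneg N)]
  refine ENNReal.ofReal_le_ofReal ?_
  have h2 : (N : ℝ) * δ ≤ 2 * y := by
    have h3 : (N : ℝ) * δ ≤ 2 * (y / δ) * δ := mul_le_mul_of_nonneg_right hN1 d0.le
    have h4 : 2 * (y / δ) * δ = 2 * y := by field_simp
    linarith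
  have h3 : (N : ℝ) * (324 * (432 * (δ * (2 * z)))) = 324 * 432 * 2 * ((N : ℝ) * δ) * z := by ring
  rw [h3]
  have h4 : (N : ℝ) * δ * z ≤ 2 * y * z := mul_le_mul_of_nonneg_right h2 hz.le
  nlinarith [mul_pos hy hz]

theorem VOX_closed (x y z : ℝ) : IsClosed {b : SL(2, ℝ) | (∀ i j, |b.1 i j| ≤ 3) ∧ |b.1 1 0| ≤ x ∧
    |b.1 0 1| ≤ y ∧ |b.1 0 0 - b.1 1 1| ≤ z} := by
  have hc : ∀ i j : Fin 2, Continuous fun h : SL(2, ℝ) => h.1 i j := fun i j =>
    ((continuous_apply j).comp ((continuous_apply i).comp continuous_subtype_val))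
  have h1 : {b : SL(2, ℝ) | (∀ i j, |b.1 i j| ≤ 3) ∧ |b.1 1 0| ≤ x ∧ |b.1 0 1| ≤ y ∧ |b.1 0 0 - b.1 1 1| ≤ z} =
      (⋂ i : Fin 2, ⋂ j : Fin 2, {h : SL(2, ℝ) | |h.1 i j| ≤ 3}) ∩ ({h : SL(2, ℝ) | |h.1 1 0| ≤ x} ∩
        ({h : SL(2, ℝ) | |h.1 0 1| ≤ y} ∩ {h : SL(2, ℝ) | |h.1 0 0 - h.1 1 1| ≤ z})) := by
    ext h
    simp only [Set.mem_inter_iff, Set.mem_iInter, Set.mem_ofPred_eq]
  rw [h1]
  exact (isClosed_iInter fun i => isClosed_iInter fun j =>
    isClosed_le (hc i j).abs continuous_const).inter ((isClosed_le (hc 1 0).abs continuous_const).inter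
      ((isClosed_le (hc 0 1).abs continuous_const).inter
        (isClosed_le ((hc 0 0).sub (hc 1 1)).abs continuous_const)))

theorem VOX_proof : VOX_stmt := by
  refine ⟨3000000, by norm_num, fun x y z hx hx8 hy hz => ?_⟩
  have hG := GLC
  obtain ⟨-, hsc, -, -, -, -, hk, -⟩ := hG
  have := GMG_prob
  have hE := (VOX_closed x y z).measurableSet
  have hphi := (GMG_cont hk).measurable
  rw [GMG_mG, Measure.map_apply hphi hE, Measure.prod_apply_symm (hphi hE)]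
  have hb : ∀ θ : ℝ, (volume : Measure ℍ) ((fun w => (w, θ)) ⁻¹' (GMG_phi ⁻¹' {b : SL(2, ℝ) |
      (∀ i j, |b.1 i j| ≤ 3) ∧ |b.1 1 0| ≤ x ∧ |b.1 0 1| ≤ y ∧ |b.1 0 0 - b.1 1 1| ≤ z})) ≤
      {θ : ℝ | |Real.sin θ| ≤ 5 * x}.indicator (fun _ => ENNReal.ofReal (600000 * (y * z))) θ := by
    intro θ
    by_cases hθ : |Real.sin θ| ≤ 5 * x ∧ 3 / 4 ≤ |Real.cos θ|
    · rw [Set.indicator_of_mem (show θ ∈ {θ : ℝ | |Real.sin θ| ≤ 5 * x} from hθ.1)]
      refine le_trans (measure_mono ?_) (VOX_slice θ y z hy hz hθ.2)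
      rintro w ⟨g0, g1, g2, g3⟩
      obtain ⟨-, -, k1, k2, k3, k4⟩ := VOX_mem w θ x y z hx8 g0 g1 g2 g3
      exact ⟨k1, k2, k3, k4⟩
    · have h1 : ((fun w => (w, θ)) ⁻¹' (GMG_phi ⁻¹' {b : SL(2, ℝ) |
          (∀ i j, |b.1 i j| ≤ 3) ∧ |b.1 1 0| ≤ x ∧ |b.1 0 1| ≤ y ∧ |b.1 0 0 - b.1 1 1| ≤ z}) : Set ℍ) = ∅ := by
        rw [Set.eq_empty_iff_forall_notMem]
        rintro w ⟨g0, g1, g2, g3⟩
        obtain ⟨k1, k2, -⟩ := VOX_mem w θ x y z hx8 g0 g1 g2 g3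
        exact hθ ⟨k1, k2⟩
      rw [h1, measure_empty]
      exact zero_le
  refine (lintegral_mono hb).trans ?_
  have hS : MeasurableSet {θ : ℝ | |Real.sin θ| ≤ 5 * x} :=
    (isClosed_le Real.continuous_sin.abs continuous_const).measurableSet
  rw [lintegral_indicator hS, setLIntegral_const]
  have hν : GMG_nu {θ : ℝ | |Real.sin θ| ≤ 5 * x} ≤ ENNReal.ofReal (5 * x) := by
    unfold GMG_nu
    rw [Measure.smul_apply, Measure.restrict_apply hS, smul_eq_mul]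
    have h3 : ENNReal.ofReal (2 * Real.pi) ≠ 0 := by
      rw [Ne, ENNReal.ofReal_eq_zero, not_le]
      positivity
    calc (ENNReal.ofReal (2 * Real.pi))⁻¹ * (volume : Measure ℝ) ({θ : ℝ | |Real.sin θ| ≤ 5 * x} ∩ Ioc 0 (2 * Real.pi))
        ≤ (ENNReal.ofReal (2 * Real.pi))⁻¹ * ENNReal.ofReal (2 * Real.pi * (5 * x)) :=
          mul_le_mul_right (EN.XVO_sin (5 * x) (by positivity)) _
      _ = ENNReal.ofReal (5 * x) := by
          rw [ENNReal.ofReal_mul (p := 2 * Real.pi) (q := 5 * x) (by positivity), ← mul_assoc,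
            ENNReal.inv_mul_cancel h3 ENNReal.ofReal_ne_top, one_mul]
  refine (mul_le_mul_right hν _).trans ?_
  rw [← ENNReal.ofReal_mul (by positivity)]
  refine ENNReal.ofReal_le_ofReal ?_
  nlinarith [mul_pos (mul_pos hx hy) hz]

end Pool.Agent.RPQ
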