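import Pool.Agent.helper29.RPQ.SpecP
import Pool.Agent.helper22.MS.GKF

/-!
# MP_07c750, project RPQ, row OVS: the support of the kernel `gk`
-/

set_option autoImplicit false

open scoped MatrixGroups ContDiff Topology UpperHalfPlane ComplexConjugate
open UpperHalfPlane MeasureTheory Filter Set

namespace Pool.Agent.RPQ

open Pool.Agent.RS
open Pool.Agent.MS (BA BB st pf gk Dk amk)

theorem OVS_one {y l : ℝ} (hy : 0 < y) (h : |Real.log y| ≤ l) (hl : l ≤ 1 / 4) : |1 - y| ≤ 2 * l := by
  have h1 := Real.abs_exp_sub_one_le (x := Real.log y) (by linarith)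
  rw [Real.exp_log hy] at h1
  rw [abs_sub_comm]
  linarith

theorem OVS_proof : OVS_stmt := by
  intro R w w' l c1 c2 b hw hw' hl h1 h2 hne
  have hex : ∃ z : ℍ, pk R c1 z * conj (pk R c2 (b⁻¹ • z)) ≠ 0 := by
    by_contra hc
    push Not at hc
    apply hne
    unfold gk
    simp [hc]
  obtain ⟨z, hz⟩ := hex
  have h3 : pk R c1 z ≠ 0 := left_ne_zero_of_mul hz
  have h4 : pk R c2 (b⁻¹ • z) ≠ 0 := by
    intro h0
    apply right_ne_zero_of_mul hz
    rw [h0, map_zero]
  obtain ⟨hx, hy⟩ := h1 z (left_ne_zero_of_mul h3)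
  obtain ⟨hx', hy'⟩ := h2 (b⁻¹ • z) (left_ne_zero_of_mul h4)
  have hent := Pool.Agent.MS.GKF_ent b z (hx.trans hw) (hy.trans hl) (hx'.trans hw') (hy'.trans hl)
  refine ⟨hent, ?_⟩
  set v := b⁻¹ • z with hv
  have hzv : z = b • v := by rw [hv, smul_inv_smul]
  have e1 := IN0_coe b v
  have e2 := IN0_den b v
  rw [← hzv, eq_div_iff e2] at e1
  have hre := congrArg Complex.re e1
  have him := congrArg Complex.im e1
  simp only [Complex.mul_re, Complex.mul_im, Complex.add_re, Complex.add_im, Complex.ofReal_re, Complex.ofReal_im,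
    zero_mul, sub_zero, add_zero, UpperHalfPlane.coe_re, UpperHalfPlane.coe_im] at hre him
  have ha : |b 0 0| ≤ 3 := hent 0 0
  have hd : |b 1 1| ≤ 3 := hent 1 1
  have hyb := Pool.Agent.MS.GKF_log z.im_pos (hy.trans hl)
  have hyb' := Pool.Agent.MS.GKF_log v.im_pos (hy'.trans hl)
  have hone := OVS_one z.im_pos hy hl
  have hone' := OVS_one v.im_pos hy' hl
  show |b 0 1| ≤ 12 * (w + w' + |b 1 0|) ∧ |b 0 0 - b 1 1| ≤ 12 * (l + |b 1 0|)
  generalize b 0 0 = p at *
  generalize b 0 1 = q at *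
  generalize b 1 0 = s at *
  generalize b 1 1 = t at *
  generalize z.re = x at *
  generalize z.im = y at *
  generalize v.re = x' at *
  generalize v.im = y' at *
  have hw0 : 0 ≤ w := (abs_nonneg _).trans hx
  have hw0' : 0 ≤ w' := (abs_nonneg _).trans hx'
  have hs := abs_nonneg s
  have hyy : |y| ≤ 1.29 := abs_le.2 ⟨by linarith, hyb.2⟩
  have hyy' : |y'| ≤ 1.29 := abs_le.2 ⟨by linarith, hyb'.2⟩
  have k1 : |x * x' - y * y'| ≤ 2 := by
    have m1 : |x * x'| ≤ 1 / 4 * (1 / 4) := by
      rw [abs_mul]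
      exact mul_le_mul (hx.trans hw) (hx'.trans hw') (abs_nonneg _) (by norm_num)
    have m2 : |y * y'| ≤ 1.29 * 1.29 := by
      rw [abs_mul]
      exact mul_le_mul hyy hyy' (abs_nonneg _) (by norm_num)
    have m3 := abs_sub (x * x') (y * y')
    linarith
  have k2 : |x * y' + y * x'| ≤ 2 := by
    have m1 : |x * y'| ≤ 1 / 4 * 1.29 := by
      rw [abs_mul]
      exact mul_le_mul (hx.trans hw) hyy' (abs_nonneg _) (by norm_num)
    have m2 : |y * x'| ≤ 1.29 * (1 / 4) := by
      rw [abs_mul]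
      exact mul_le_mul hyy (hx'.trans hw') (abs_nonneg _) (by norm_num)
    have m3 := abs_add_le (x * y') (y * x')
    linarith
  constructor
  · have k3 : q = s * (x * x' - y * y') + (t * x - p * x') := by linarith
    have k4 : |s * (x * x' - y * y')| ≤ |s| * 2 := by
      rw [abs_mul]
      exact mul_le_mul_of_nonneg_left k1 hs
    have k5 : |t * x| ≤ 3 * w := by
      rw [abs_mul]
      exact mul_le_mul hd hx (abs_nonneg _) (by norm_num)
    have k6 : |p * x'| ≤ 3 * w' := by
      rw [abs_mul]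
      exact mul_le_mul ha hx' (abs_nonneg _) (by norm_num)
    have k7 := abs_add_le (s * (x * x' - y * y')) (t * x - p * x')
    have k8 := abs_sub (t * x) (p * x')
    rw [k3]
    linarith
  · have k3 : p - t = s * (x * y' + y * x') + (p * (1 - y') - t * (1 - y)) := by linarith
    have k4 : |s * (x * y' + y * x')| ≤ |s| * 2 := by
      rw [abs_mul]
      exact mul_le_mul_of_nonneg_left k2 hs
    have k5 : |p * (1 - y')| ≤ 3 * (2 * l) := by
      rw [abs_mul]
      exact mul_le_mul ha hone' (abs_nonneg _) (by norm_num)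
    have k6 : |t * (1 - y)| ≤ 3 * (2 * l) := by
      rw [abs_mul]
      exact mul_le_mul hd hone (abs_nonneg _) (by norm_num)
    have k7 := abs_add_le (s * (x * y' + y * x')) (p * (1 - y') - t * (1 - y))
    have k8 := abs_sub (p * (1 - y')) (t * (1 - y))
    rw [k3]
    linarith

end Pool.Agent.RPQ
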