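import Pool.Agent.helper29.RPQ.SpecP
import Pool.Agent.helper83.RPQ.NSM
import Pool.Agent.helper48.RPQ.HFB
import Pool.Agent.helper48.RPQ.LGB
import Pool.Agent.helper58.RPQ.CWB
import Pool.Agent.helper83.RPQ.BUA
import Pool.Agent.helper65.RPQ.BUB
import Pool.Agent.helper2.RPQ.BU2
import Pool.Agent.helper26.RPQ.BU3
import Pool.Agent.helper51.RPQ.ACC
import Pool.Agent.helper48.RPQ.ACM
import Pool.Agent.helper96.RPQ.GKD
import Pool.Agent.helper29.RPQ.OVS
import Pool.Agent.helper14.RPQ.AM1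
import Pool.Agent.helper24.RPQ.AM2
import Pool.Agent.helper18.RPQ.OVD
import Pool.Agent.helper88.RPQ.UKB
import Pool.Agent.helper29.RPQ.VOX
import Pool.Agent.helper9.RPQ.GKI
import Pool.Agent.helper43.RPQ.EFU
import Pool.Agent.helper58.RPQ.SCF
import Pool.Agent.helper88.RPQ.GFB
import Pool.Agent.helper88.RPQ.F1

/-!
# MP_07c750, project RPQ: all rows of block P (packets), without hypotheses
-/

set_option autoImplicit false

namespace Pool.Agent.RPQ

theorem A_NSM : NSM_stmt := NSM_proof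
theorem A_HFB : HFB_stmt := HFB_proof
theorem A_LGB : LGB_stmt := LGB_proof
theorem A_CWB : CWB_stmt := CWB_proof
theorem A_BUA : BUA_stmt := BUA_proof A_NSM A_LGB A_CWB
theorem A_BUB : BUB_stmt := BUB_proof A_CWB
theorem A_BU2 : BU2_stmt := BU2_proof A_CWB
theorem A_BU3 : BU3_stmt := BU3_proof A_BUA A_BUB A_BU2 A_HFB A_CWB
theorem A_ACC : ACC_stmt := ACC_proof A_CWB
theorem A_ACM : ACM_stmt := ACM_proof
theorem A_GKD : GKD_stmt := GKD_proof
theorem A_OVS : OVS_stmt := OVS_proof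
theorem A_AM1 : AM1_stmt := AM1_proof
theorem A_AM2 : AM2_stmt := AM2_proof A_AM1
theorem A_OVD : OVD_stmt := OVD_proof A_NSM A_AM1 A_AM2 A_GKD A_ACM
theorem A_UKB : UKB_stmt := UKB_proof A_OVD A_OVS A_ACC A_ACM
theorem A_VOX : VOX_stmt := VOX_proof
theorem A_GKI : GKI_stmt := GKI_proof A_OVD A_OVS A_VOX A_ACM
theorem A_EFU : EFU_stmt := EFU_proof A_ACC A_ACM A_CWB
theorem A_SCF : SCF_stmt := SCF_proof
theorem A_GFB : GFB_stmt := GFB_proof A_SCF A_GKI A_ACM
theorem A_F1 : F1_stmt := F1_proof A_BU3 A_HFB A_EFU A_CWB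

end Pool.Agent.RPQ
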